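import Pool.Agent.H990_Full.Final

/-! The threshold of Song and of Keevash and Sudakov: the value is `t` for every positive `t`. -/

open H990 in
/-- For every `t ≥ 1`, the least connectivity which forces, in all sufficiently large tournaments,
`t` disjoint cycles of all prescribed lengths at least three summing to the order, is `t`. -/
theorem Pool.Agent.Results.MP_1399e9_co.CycleFactorThreshold.result (t : ℕ) (ht : 1 ≤ t) :
    IsLeast {k : ℕ | ∃ n₀ : ℕ, ∀ n ≥ n₀, ∀ r : Fin n → Fin n → Prop, IsTournament r →
      KConnected r k → ∀ l : Fin t → ℕ, (∀ i, 3 ≤ l i) → ∑ i, l i = n →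
        HasDisjointCycles r l} t := by
  constructor
  · refine ⟨kN t, ?_⟩
    intro n hn r hT hk l hl3 hsum
    exact full_upper hT ht hk l hl3 (by rw [Fintype.card_fin]; exact hsum)
      (by rw [Fintype.card_fin]; exact hn)
  · rintro k ⟨n₀, h⟩
    by_contra hlt
    push Not at hlt
    obtain ⟨s, rfl⟩ : ∃ s, t = s + 1 := ⟨t - 1, by omega⟩
    obtain ⟨l, hl1, hl2, _⟩ := exists_lengths (t := s + 1) (n := max n₀ (3 * (s + 1))) ht
      (le_max_right _ _)
    have h1 : 3 * (s + 1) ≤ max n₀ (3 * (s + 1)) := le_max_right _ _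
    exact lowRel_not l hl1 (h _ (le_max_left _ _) _ (lowRel_tournament s _)
      (lowRel_conn (by omega) (by omega)) l hl1 hl2)
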